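import Pool.Agent.helper34.FJ3.DefsC
import Pool.Agent.helper50.LT.Base

set_option autoImplicit false
set_option linter.unusedSectionVars false
set_option linter.unusedVariables false

/-!
Module FJ3-C5: an Artin group is the directed colimit of the Artin groups of the finite subsets of
the generators (adapted from helper50's module LT-N5).
-/

namespace Pool.Agent.helper46.FJ3

open Pool.Agent.helper34.FJ3
open Pool.Agent.helper36.LT (Artin gen alt artinRels)
open Pool.Agent.helper50.LT (alt_map gen_rel lift lift_gen artin_hom_ext)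

section

variable {S : Type} (M : CoxeterMatrix S)

/-- restriction of a Coxeter matrix to a finite subset -/
def restr (F : Finset S) : CoxeterMatrix F where
  M := M.M.submatrix (fun i => i.1) (fun i => i.1)
  isSymm := M.isSymm.submatrix _
  diagonal i := M.diagonal _
  off_diagonal i i' h := M.off_diagonal _ _ (fun h' => h (Subtype.ext h'))

/-- the natural homomorphism -/
def mp (F F' : Finset S) (h : F ≤ F') : Artin (restr M F) →* Artin (restr M F') :=
  lift (restr M F) (fun s => gen (restr M F') ⟨s.1, h s.2⟩)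
    (fun s t => gen_rel (restr M F') ⟨s.1, h s.2⟩ ⟨t.1, h t.2⟩)

theorem mp_gen {F F' : Finset S} (h : F ≤ F') (s : S) (hs : s ∈ F) :
    mp M F F' h (gen (restr M F) ⟨s, hs⟩) = gen (restr M F') ⟨s, h hs⟩ := lift_gen _ _ _ _

/-- the natural homomorphism to the whole group -/
def inc (F : Finset S) : Artin (restr M F) →* Artin M :=
  lift (restr M F) (fun s => gen M s.1) (fun s t => gen_rel M s.1 t.1)

theorem inc_gen (F : Finset S) (s : S) (hs : s ∈ F) :
    inc M F (gen (restr M F) ⟨s, hs⟩) = gen M s := lift_gen _ _ _ _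

theorem mp_refl {F : Finset S} (h : F ≤ F) (x : Artin (restr M F)) : mp M F F h x = x := by
  have : mp M F F h = MonoidHom.id _ := by
    apply artin_hom_ext
    rintro ⟨s, hs⟩
    rw [mp_gen]
    rfl
  rw [this]
  rfl

theorem mp_mp {F F' F'' : Finset S} (h : F ≤ F') (h' : F' ≤ F'') (h'' : F ≤ F'')
    (x : Artin (restr M F)) : mp M F' F'' h' (mp M F F' h x) = mp M F F'' h'' x := by
  have : (mp M F' F'' h').comp (mp M F F' h) = mp M F F'' h'' := by
    apply artin_hom_ext
    rintro ⟨s, hs⟩
    rw [MonoidHom.comp_apply, mp_gen, mp_gen, mp_gen]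
  exact DFunLike.congr_fun this x

theorem inc_mp {F F' : Finset S} (h : F ≤ F') (x : Artin (restr M F)) :
    inc M F' (mp M F F' h x) = inc M F x := by
  have : (inc M F').comp (mp M F F' h) = inc M F := by
    apply artin_hom_ext
    rintro ⟨s, hs⟩
    rw [MonoidHom.comp_apply, mp_gen, inc_gen, inc_gen]
  exact DFunLike.congr_fun this x

end

section

variable {S : Type} [DecidableEq S] (M : CoxeterMatrix S)

/-- the groups -/
abbrev GE (F : Finset S) : Type := Artin (restr M F)

instance dirSys : DirectedSystem (GE M) (fun i j h => mp M i j h) where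
  map_self i x := mp_refl M _ x
  map_map i j k hij hjk x := mp_mp M _ _ _ x

/-- the direct limit -/
abbrev DL : Type := DirectLimit (GE M) (mp M)

/-- the canonical homomorphism to the direct limit -/
noncomputable def can (F : Finset S) : GE M F →* DL M where
  toFun x := Quotient.mk _ ⟨F, x⟩
  map_one' := (DirectLimit.one_def F).symm
  map_mul' x y := (DirectLimit.mul_def F x y).symm

theorem can_tr (F F' : Finset S) (h : F ≤ F') (x : GE M F) :
    can M F' (mp M F F' h x) = can M F x :=
  (DirectLimit.mk_apply (f := fun i j h => mp M i j h) F F' x h)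

theorem can_gen (F F' : Finset S) (s : S) (h : s ∈ F) (h' : s ∈ F') :
    can M F (gen (restr M F) ⟨s, h⟩) = can M F' (gen (restr M F') ⟨s, h'⟩) := by
  have h1 : F ≤ F ∪ F' := Finset.subset_union_left
  have h2 : F' ≤ F ∪ F' := Finset.subset_union_right
  rw [← can_tr M F _ h1, ← can_tr M F' _ h2]
  simp only [mp_gen]

/-- the homomorphism to the direct limit -/
noncomputable def toDL : Artin M →* DL M :=
  lift M (fun s => can M {s} (gen (restr M {s}) ⟨s, by simp⟩)) (by
    intro s t
    have hs : s ∈ ({s, t} : Finset S) := by simp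
    have ht : t ∈ ({s, t} : Finset S) := by simp
    rw [can_gen M {s} {s, t} s _ hs, can_gen M {t} {s, t} t _ ht, ← alt_map, ← alt_map]
    congr 1
    exact gen_rel (restr M {s, t}) ⟨s, hs⟩ ⟨t, ht⟩)

theorem toDL_gen (s : S) : toDL M (gen M s) =
    can M {s} (gen (restr M {s}) ⟨s, by simp⟩) := lift_gen _ _ _ _

theorem toDL_inc (F : Finset S) (x : GE M F) :
    toDL M (inc M F x) = can M F x := by
  have : (toDL M).comp (inc M F) = can M F := by
    apply artin_hom_ext
    rintro ⟨s, hs⟩
    rw [MonoidHom.comp_apply, inc_gen, toDL_gen]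
    exact can_gen M _ _ s _ _
  exact DFunLike.congr_fun this x

theorem ker_inc (F : Finset S) (x : GE M F) (h : inc M F x = 1) :
    ∃ F', ∃ hF : F ≤ F', mp M F F' hF x = 1 := by
  have h1 : can M F x = 1 := by
    rw [← toDL_inc, h, map_one]
  exact (DirectLimit.exists_eq_one (f := mp M) ⟨F, x⟩).1 h1

theorem surj_inc (y : Artin M) : ∃ (F : Finset S) (x : GE M F), inc M F x = y := by
  have h : y ∈ (⊤ : Subgroup (Artin M)) := Subgroup.mem_top _
  rw [← PresentedGroup.closure_range_of (artinRels M)] at h
  induction h using Subgroup.closure_induction with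
  | mem y hy =>
    obtain ⟨s, rfl⟩ := hy
    exact ⟨{s}, gen (restr M {s}) ⟨s, by simp⟩, inc_gen M _ s _⟩
  | one => exact ⟨∅, 1, map_one _⟩
  | mul y z _ _ ihy ihz =>
    obtain ⟨F, x, hx⟩ := ihy
    obtain ⟨F', x', hx'⟩ := ihz
    have h1 : F ≤ F ∪ F' := Finset.subset_union_left
    have h2 : F' ≤ F ∪ F' := Finset.subset_union_right
    refine ⟨F ∪ F', mp M F _ h1 x * mp M F' _ h2 x', ?_⟩
    rw [map_mul, inc_mp, inc_mp, hx, hx']
  | inv y _ ih =>
    obtain ⟨F, x, hx⟩ := ih
    exact ⟨F, x⁻¹, by rw [map_inv, hx]⟩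

end

theorem artin_colim {P : ∀ (G : Type) [Group G], Prop} (hP : Closed P)
    (h : ∀ (S : Type) [Finite S] (M : CoxeterMatrix S), TwoDim M → P (Artin M)) (S : Type)
    (M : CoxeterMatrix S) (hM : TwoDim M) : P (Artin M) := by
  classical
  apply hP.colim (Finset S) (GE M) (mp M) (Artin M) (fun F => inc M F)
  · intro F x
    exact mp_refl M _ x
  · intro i j k hij hjk x
    exact mp_mp M _ _ _ x
  · intro i j h x
    exact inc_mp M _ x
  · exact surj_inc M
  · exact ker_inc M
  · intro F
    apply h F (restr M F)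
    intro r s t hrs hst hrt
    exact hM r.1 s.1 t.1 (fun h => hrs (Subtype.ext h)) (fun h => hst (Subtype.ext h))
      (fun h => hrt (Subtype.ext h))

end Pool.Agent.helper46.FJ3
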